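import Pool.Agent.H34.SCG2.Grp
import Pool.Agent.H24.SCG2.Stmts4

/-!
FIN5: the final theorem for `q = 5` modulo `6`.
-/

set_option autoImplicit false

namespace Pool.Agent.H34.SCG2

open Matrix Pool.SCG

theorem cube5 {F : Type} [Field F] [Fintype F] (h : Fintype.card F % 6 = 5) (x : F) :
    ∃ y : F, y ^ 3 = x := by
  by_cases hx : x = 0
  · exact ⟨0, by rw [hx]; norm_num⟩
  · refine ⟨x ^ ((2 * Fintype.card F - 1) / 3), ?_⟩
    have h1 := FiniteField.pow_card_sub_one_eq_one x hx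
    rw [← pow_mul]
    have h2 : (2 * Fintype.card F - 1) / 3 * 3 = (Fintype.card F - 1) * 2 + 1 := by omega
    rw [h2, pow_succ, pow_mul, h1, one_pow, one_mul]

/-- FIN5: the final theorem for `q = 5` modulo `6`. -/
theorem fin5_thm (hFIN : FINStmt) (hDGT : DGTStmt) : FIN5Stmt := by
  intro F _ _ hF
  have : Fintype F := Fintype.ofFinite F
  rw [Nat.card_eq_fintype_card] at hF
  obtain ⟨-, hadm⟩ := (hDGT F (cube5 hF)).2
  obtain ⟨-, h1, h2⟩ := hFIN F hF
  refine ⟨fun G hG hG' => by rw [hadm]; exact h1 G hG hG', fun G hG => ?_⟩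
  obtain ⟨h3, h4⟩ := adm_between hG
  rw [hadm] at hG
  exact ⟨h3, h4, by rw [hG]; exact h2⟩

end Pool.Agent.H34.SCG2
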