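import Pool.Agent.H34.SCG2.Grp
import Pool.Agent.H24.SCG2.Stmts3

/-!
FINZ: the final theorem for `q = 1` modulo `6`.
-/

set_option autoImplicit false

namespace Pool.Agent.H34.SCG2

open Matrix Pool.SCG

/-- FINZ: the final theorem for `q = 1` modulo `6`. -/
theorem finz_thm (hUPZ : UPZStmt) (hEXZ1 : EXZ1Stmt) (hEXZ2 : EXZ2Stmt) (hCNJ : CNJStmt) :
    FINZStmt := by
  intro F _ _ hF
  refine fin_of (hUPZ F hF) ?_
  rintro G (rfl | ⟨P, rfl⟩)
  · exact hEXZ2 F hF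
  · exact hCNJ _ _ _ _ (hEXZ1 F hF)

end Pool.Agent.H34.SCG2
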