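import Pool.Agent.H24.SCG2.Stmts2

/-!
UPZ: the upper bound for all groups between `Inn F` and `AutG F`.
-/

set_option autoImplicit false

namespace Pool.Agent.H34.SCG2

open Matrix Pool.SCG

theorem two_ne {F : Type} [Field F] [Finite F] (h : OddP F) : (2 : F) ≠ 0 := by
  intro h2
  have h3 : addOrderOf (1 : F) = 2 := by
    apply addOrderOf_eq_prime
    · rw [nsmul_eq_mul, mul_one]
      exact_mod_cast h2
    · exact one_ne_zero
  have h4 := addOrderOf_dvd_natCard (1 : F)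
  rw [h3] at h4
  have := h.1
  omega

/-- UPZ: the upper bound for the groups between `Inn F` and `AutG F`. -/
theorem upz_thm (hEXT : EXTStmt) (hAUI : AUIZStmt) (hIRZ : IRZStmt) (hBVZ : BVZStmt)
    (hGPA : GPAStmt) (hWIN : WINStmt) (hS5 : S5ZStmt) (hU5 : U5ZStmt) (hT5 : T5NStmt)
    (hR6 : R6Stmt) : UPZStmt := by
  intro F _ _ hF G r hInn hAut hS
  obtain ⟨ρ, hρ, hgen⟩ := hS
  have h2 : (2 : F) ≠ 0 := two_ne hF
  have hρG : ∀ i, ρ i ∈ G := fun i => by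
    rw [← hgen]
    exact Subgroup.subset_closure ⟨i, rfl⟩
  have hρ2 : ∀ i, ρ i ≠ 1 ∧ ρ i * ρ i = 1 := by
    intro i
    have h := hρ.invol i
    refine ⟨?_, ?_⟩
    · intro h1
      rw [h1, orderOf_one] at h
      exact absurd h (by norm_num)
    · rw [← pow_two, ← h]
      exact pow_orderOf_eq_one _
  have hHP : ∀ i, HomA (ρ i) ∨ PolA (ρ i) := fun i =>
    hAUI F h2 hF.2 (ρ i) (hAut (hρG i)) (hρ2 i).2
  have hinn : ∀ m : SL3 F, MulAut.conj m ∈ Subgroup.closure (Set.range ρ) := by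
    intro m
    rw [hgen]
    exact hInn ⟨m, rfl⟩
  have hirr := hIRZ F hF r ρ hρ2 hHP hρ.comm hinn
  have hpol : ∃ i, PolA (ρ i) := by
    by_contra hno
    have hno' : ∀ i, HomA (ρ i) := fun i => by
      rcases hHP i with h | h
      · exact h
      · exact absurd ⟨i, h⟩ hno
    obtain ⟨m, hm⟩ := hBVZ F hF r ρ hρ2 hno' hρ.comm hirr
    exact hm (hinn m)
  refine ⟨?_, ?_⟩
  · rw [← hgen]
    exact hGPA F hF r ρ hHP hpol (by rw [hgen]; exact hInn)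
  by_contra hr
  have hr5 : 5 ≤ r := by omega
  obtain ⟨K, _, _, _, hK, hcube⟩ := hEXT F hF
  have hwin := hWIN (MulAut (SL3 F)) r ρ hρ hirr
  rcases Nat.eq_or_lt_of_le hr5 with h5 | h6
  · subst h5
    have hw := hwin 0 1 2 3 4 rfl rfl rfl rfl
    obtain ⟨a', b', c', d', e', ha, hb, hc, hd, he, hstr⟩ := hS5 F K hF hK hcube _ _ _ _ _ hw
      (hHP _) (hHP _) (hHP _) (hHP _) (hHP _)
    rcases hU5 K hK a' b' c' d' e' hstr with h | h
    · obtain ⟨m, hm⟩ := hT5 F K hF hK _ _ _ _ _ _ _ _ _ _ ha hb hc hd he h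
      apply hm
      have hsub : Set.range ρ ⊆ ({ρ 0, ρ 1, ρ 2, ρ 3, ρ 4} : Set (MulAut (SL3 F))) := by
        rintro _ ⟨i, rfl⟩
        fin_cases i <;> simp
      exact Subgroup.closure_mono hsub (hinn m)
    · obtain ⟨m, hm⟩ := hT5 F K hF hK _ _ _ _ _ _ _ _ _ _ he hd hc hb ha h
      apply hm
      have hsub : Set.range ρ ⊆ ({ρ 4, ρ 3, ρ 2, ρ 1, ρ 0} : Set (MulAut (SL3 F))) := by
        rintro _ ⟨i, rfl⟩
        fin_cases i <;> simp
      exact Subgroup.closure_mono hsub (hinn m)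
  · obtain ⟨f0, h0⟩ : ∃ f : Fin r, f.val = 0 := ⟨⟨0, by omega⟩, rfl⟩
    obtain ⟨f1, h1⟩ : ∃ f : Fin r, f.val = 1 := ⟨⟨1, by omega⟩, rfl⟩
    obtain ⟨f2, h2⟩ : ∃ f : Fin r, f.val = 2 := ⟨⟨2, by omega⟩, rfl⟩
    obtain ⟨f3, h3⟩ : ∃ f : Fin r, f.val = 3 := ⟨⟨3, by omega⟩, rfl⟩
    obtain ⟨f4, h4⟩ : ∃ f : Fin r, f.val = 4 := ⟨⟨4, by omega⟩, rfl⟩
    obtain ⟨f5, h5⟩ : ∃ f : Fin r, f.val = 5 := ⟨⟨5, by omega⟩, rfl⟩
    exact hR6 F K hF hK hcube _ _ _ _ _ _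
      (hwin f0 f1 f2 f3 f4 (by omega) (by omega) (by omega) (by omega))
      (hwin f1 f2 f3 f4 f5 (by omega) (by omega) (by omega) (by omega))
      (hHP _) (hHP _) (hHP _) (hHP _) (hHP _) (hHP _)

end Pool.Agent.H34.SCG2
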