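import Pool.Agent.H24.SCG2.Base3

/-!
The groups `DiagExt F` and `GraphExtC P` lie between `Inn F` and `AutG F`.
-/

set_option autoImplicit false

namespace Pool.Agent.H34.SCG2

open Matrix Pool.SCG

variable {F : Type} [Field F]

theorem conj_mem_autG (m : SL3 F) : MulAut.conj m ∈ AutG F :=
  Subgroup.subset_closure (Or.inl (Or.inl (Or.inl ⟨m, rfl⟩)))

theorem diag_mem_autG (P : GL (Fin 3) F) : diagAut P ∈ AutG F :=
  Subgroup.subset_closure (Or.inl (Or.inl (Or.inr ⟨P, rfl⟩)))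

theorem graph_mem_autG : graphAut F ∈ AutG F :=
  Subgroup.subset_closure (Or.inr rfl)

theorem inn_le_graphExt : Inn F ≤ GraphExt F := by
  rintro _ ⟨m, rfl⟩
  exact Subgroup.subset_closure (Or.inl ⟨m, rfl⟩)

theorem graphExt_le_autG : GraphExt F ≤ AutG F := by
  unfold GraphExt
  rw [Subgroup.closure_le]
  rintro x (⟨m, rfl⟩ | hx)
  · exact conj_mem_autG m
  · rw [Set.mem_singleton_iff.1 hx]
    exact graph_mem_autG

theorem inn_le_diagExt : Inn F ≤ DiagExt F := by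
  rintro _ ⟨m, rfl⟩
  exact (gis_conj m).mem_diagExt

theorem diagExt_le_autG : DiagExt F ≤ AutG F := by
  unfold DiagExt
  rw [Subgroup.closure_le]
  rintro x (⟨P, rfl⟩ | hx)
  · exact diag_mem_autG P
  · rw [Set.mem_singleton_iff.1 hx]
    exact graph_mem_autG

theorem inn_le_graphExtC (P : GL (Fin 3) F) : Inn F ≤ GraphExtC P := by
  rintro _ ⟨m, rfl⟩
  refine ⟨MulAut.conj ((diagAut P)⁻¹ m), inn_le_graphExt ⟨_, rfl⟩, ?_⟩
  ext1 x
  show diagAut P ((MulAut.conj ((diagAut P)⁻¹ m)) ((diagAut P)⁻¹ x)) = MulAut.conj m x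
  rw [MulAut.conj_apply, MulAut.conj_apply, map_mul, map_mul, map_inv, MulAut.apply_inv_self,
    MulAut.apply_inv_self]

theorem graphExtC_le_autG (P : GL (Fin 3) F) : GraphExtC P ≤ AutG F := by
  rintro _ ⟨g, hg, rfl⟩
  exact Subgroup.mul_mem _ (Subgroup.mul_mem _ (diag_mem_autG P) (graphExt_le_autG hg))
    (Subgroup.inv_mem _ (diag_mem_autG P))

/-- The admissible groups lie between `Inn F` and `AutG F`. -/
theorem adm_between {G : Subgroup (MulAut (SL3 F))} (h : Adm G) : Inn F ≤ G ∧ G ≤ AutG F := by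
  rcases h with rfl | ⟨P, rfl⟩
  · exact ⟨inn_le_diagExt, diagExt_le_autG⟩
  · exact ⟨inn_le_graphExtC P, graphExtC_le_autG P⟩

/-- The final statement from the upper bound and the existence. -/
theorem fin_of (hup : ∀ (G : Subgroup (MulAut (SL3 F))) (r : ℕ), Inn F ≤ G → G ≤ AutG F →
      HasStringC G r → Adm G ∧ r ≤ 4)
    (hex : ∀ G : Subgroup (MulAut (SL3 F)), Adm G → HasStringC G 4) :
    (∀ G : Subgroup (MulAut (SL3 F)), Inn F ≤ G → G ≤ AutG F →
      ((∃ r, HasStringC G r) ↔ Adm G)) ∧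
    (∀ G : Subgroup (MulAut (SL3 F)), Adm G → Inn F ≤ G ∧ G ≤ AutG F ∧
      IsGreatest {r : ℕ | HasStringC G r} 4) := by
  refine ⟨fun G h1 h2 => ⟨?_, fun h => ⟨4, hex G h⟩⟩, fun G hG => ?_⟩
  · rintro ⟨r, hr⟩
    exact (hup G r h1 h2 hr).1
  · obtain ⟨h1, h2⟩ := adm_between hG
    exact ⟨h1, h2, hex G hG, fun r hr => (hup G r h1 h2 hr).2⟩

end Pool.Agent.H34.SCG2
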